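import Mathlib

/-!
# MP_b2b189_gt: basic definitions

The 3-sphere is treated through `ℝ⁴ ∖ {0}` with functions that are homogeneous of degree 0.
The frame `E_i f (x) = Df(x)(x·e_i)` (right multiplication by the quaternions `i, j, k`)
satisfies `[E_i, E_j] = 2 ε_{ijk} E_k`.
-/

set_option autoImplicit false

namespace Pool.Agent.helper68.B2

open scoped ContDiff Topology Matrix
open Matrix

attribute [scoped instance]
  Matrix.linftyOpNormedRing
  Matrix.linftyOpNormedAlgebra

/-- the ambient space -/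
abbrev E4 := EuclideanSpace ℝ (Fin 4)
/-- components of tangent vectors in the frame -/
abbrev V3 := Fin 3 → ℝ
/-- components of endomorphisms and of bilinear forms in the frame -/
abbrev M3 := Matrix (Fin 3) (Fin 3) ℝ

/-- matrices of the right multiplications by `i, j, k` -/
def Jm : Fin 3 → Matrix (Fin 4) (Fin 4) ℝ
  | 0 => !![0, -1, 0, 0; 1, 0, 0, 0; 0, 0, 0, 1; 0, 0, -1, 0]
  | 1 => !![0, 0, -1, 0; 0, 0, 0, -1; 1, 0, 0, 0; 0, 1, 0, 0]
  | 2 => !![0, 0, 0, -1; 0, 0, 1, 0; 0, -1, 0, 0; 1, 0, 0, 0]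

/-- right multiplication by `i, j, k` -/
noncomputable def J (i : Fin 3) : E4 →L[ℝ] E4 := Matrix.toEuclideanCLM (𝕜 := ℝ) (Jm i)

/-- the tangent vector with components `v` at `x` -/
noncomputable def fld (v : V3) (x : E4) : E4 := ∑ i, v i • J i x

/-- components of a vector `w` of `ℝ⁴` at `x` (the radial part is dropped) -/
noncomputable def comps (x w : E4) : V3 := fun i => inner ℝ (J i x) w / ‖x‖ ^ 2

/-- derivative of `f` in the direction of the tangent vector with components `v` -/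
noncomputable def Dv {F : Type*} [NormedAddCommGroup F] [NormedSpace ℝ F]
    (f : E4 → F) (v : V3) (x : E4) : F := fderiv ℝ f x (fld v x)

/-- the frame vector -/
def ee (i : Fin 3) : V3 := Pi.single i 1

/-- Levi-Civita symbol -/
def eps (i j k : Fin 3) : ℝ :=
  if (i, j, k) = (0, 1, 2) ∨ (i, j, k) = (1, 2, 0) ∨ (i, j, k) = (2, 0, 1) then 1
  else if (i, j, k) = (0, 2, 1) ∨ (i, j, k) = (2, 1, 0) ∨ (i, j, k) = (1, 0, 2) then -1 else 0

/-- homogeneous of degree `0` -/
def Hom {F : Type*} (f : E4 → F) : Prop := ∀ t : ℝ, 0 < t → ∀ x, f (t • x) = f x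

/-- smooth away from the origin -/
def Sm {F : Type*} [NormedAddCommGroup F] [NormedSpace ℝ F] (f : E4 → F) : Prop :=
  ContDiffOn ℝ ∞ f {0}ᶜ

/-- polarized adjugate: `adj (A + B) = adj A + crossM A B + adj B` -/
def crossM {K : Type*} [CommRing K] (A B : Matrix (Fin 3) (Fin 3) K) :
    Matrix (Fin 3) (Fin 3) K :=
  A * B + B * A - A.trace • B - B.trace • A + (A.trace * B.trace - (A * B).trace) • 1

/-- bilinear form with matrix `G` -/
def bil {K : Type*} [CommRing K] (G : Matrix (Fin 3) (Fin 3) K) (u v : Fin 3 → K) : K :=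
  u ⬝ᵥ (G *ᵥ v)

/-- the endomorphism `u ⊗ w♭ + w ⊗ u♭` with respect to the form `G` -/
def odot {K : Type*} [CommRing K] (G : Matrix (Fin 3) (Fin 3) K) (u w : Fin 3 → K) :
    Matrix (Fin 3) (Fin 3) K :=
  vecMulVec u (G *ᵥ w) + vecMulVec w (G *ᵥ u)

/-- the geometric data: a Lorentz metric `G` (signature `-++`) with its Levi-Civita connection `Γ`
(`∇_{E_i} E_j = ∑ k, Γ i k j E_k`), a self-adjoint endomorphism field `L` and a vector field `lam`
with `∇_X L = X ⊗ lam♭ + lam ⊗ X♭`. -/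
structure Geo where
  G : E4 → M3
  L : E4 → M3
  lam : E4 → V3
  Γ : Fin 3 → E4 → M3
  smG : Sm G
  smL : Sm L
  smlam : Sm lam
  smΓ : ∀ i, Sm (Γ i)
  homG : Hom G
  homL : Hom L
  homlam : Hom lam
  homΓ : ∀ i, Hom (Γ i)
  symm : ∀ x, x ≠ 0 → (G x)ᵀ = G x
  det_neg : ∀ x, x ≠ 0 → (G x).det < 0
  pos : ∀ x, x ≠ 0 → ∃ v : V3, 0 < bil (G x) v v
  selfadj : ∀ x, x ≠ 0 → (G x * L x)ᵀ = G x * L x
  metric : ∀ x, x ≠ 0 → ∀ i, Dv G (ee i) x = (Γ i x)ᵀ * G x + G x * Γ i x
  torsion : ∀ x, x ≠ 0 → ∀ i j k, Γ i x k j - Γ j x k i = 2 * eps i j k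
  main : ∀ x, x ≠ 0 → ∀ i,
    Dv L (ee i) x + (Γ i x * L x - L x * Γ i x) = odot (G x) (ee i) (lam x)

namespace Geo

variable (S : Geo)

/-- the metric as a bilinear form -/
def g (x : E4) (u v : V3) : ℝ := bil (S.G x) u v

/-- connection matrix in the direction `v` -/
noncomputable def Gam (v : V3) (x : E4) : M3 := ∑ i, v i • S.Γ i x

/-- covariant derivative of a vector field -/
noncomputable def nab (V : E4 → V3) (v : V3) (x : E4) : V3 := Dv V v x + S.Gam v x *ᵥ V x

/-- covariant derivative of an endomorphism field -/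
noncomputable def nabE (A : E4 → M3) (v : V3) (x : E4) : M3 :=
  Dv A v x + (S.Gam v x * A x - A x * S.Gam v x)

/-- the endomorphism `∇ lam` -/
noncomputable def Lam (x : E4) : M3 := Matrix.of fun i j => S.nab S.lam (ee j) x i

/-- `X ⊙ Y` at the point `x` -/
noncomputable def od (x : E4) (u w : V3) : M3 := odot (S.G x) u w

/-- the Killing tensors `adj (L - t)` -/
noncomputable def K (t : ℝ) (x : E4) : M3 := (S.L x - t • (1 : M3)).adjugate

/-- contravariant form (symmetric matrix) of the Killing tensor -/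
noncomputable def Ku (t : ℝ) (x : E4) : M3 := S.K t x * (S.G x)⁻¹

/-- `L` is not a constant multiple of the identity -/
def NC : Prop := ¬ ∃ c : ℝ, ∀ x, x ≠ 0 → S.L x = c • (1 : M3)

end Geo

end Pool.Agent.helper68.B2
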