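import Pool.Agent.helper68.B2.Defs

/-! # MP_b2b189_gt: further definitions (Lorentz linear algebra, forms, eigenvalue functions) -/

set_option autoImplicit false

namespace Pool.Agent.helper68.B2

open scoped ContDiff Topology Matrix
open Matrix

/-- Lorentz form of signature `-++` -/
structure Lor (G : M3) : Prop where
  symm : Gᵀ = G
  det_neg : G.det < 0
  pos : ∃ v : V3, 0 < bil G v v

/-- self-adjoint with respect to `G` -/
def SA (G A : M3) : Prop := (G * A)ᵀ = G * A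

/-- the characteristic polynomial has the real roots `a, b, c` -/
def RR3 (A : M3) (a b c : ℝ) : Prop :=
  ∀ t : ℝ, (t • (1 : M3) - A).det = (t - a) * (t - b) * (t - c)

/-- null frame: `z, n` null, `g(z,n) = 1`, `e` unit spacelike, orthogonal to both -/
structure NFrame (G : M3) (z n e : V3) : Prop where
  zz : bil G z z = 0
  nn : bil G n n = 0
  zn : bil G z n = 1
  ee : bil G e e = 1
  ze : bil G z e = 0
  ne : bil G n e = 0

/-- the 1-form on `ℝ⁴ ∖ 0` with frame components `α`, killing the radial direction -/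
noncomputable def form (α : E4 → V3) (x : E4) : E4 →L[ℝ] ℝ :=
  ∑ i, (α x i / ‖x‖ ^ 2) • (innerSL ℝ (J i x))

/-- closedness of a frame form at a point -/
def ClosedF (α : E4 → V3) (x : E4) : Prop :=
  ∀ i j, Dv (fun y => α y j) (ee i) x - Dv (fun y => α y i) (ee j) x = 2 * ∑ k, eps i j k * α x k

/-- continuous eigenvalues; `τ` carries a causal eigenvector -/
structure Roots (S : Geo) where
  τ : E4 → ℝ
  σ₁ : E4 → ℝ
  σ₂ : E4 → ℝ
  cτ : ContinuousOn τ {0}ᶜ
  c₁ : ContinuousOn σ₁ {0}ᶜ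
  c₂ : ContinuousOn σ₂ {0}ᶜ
  hτ : Hom τ
  h₁ : Hom σ₁
  h₂ : Hom σ₂
  fac : ∀ x, x ≠ 0 → RR3 (S.L x) (τ x) (σ₁ x) (σ₂ x)
  le : ∀ x, x ≠ 0 → σ₁ x ≤ σ₂ x
  causal : ∀ x, x ≠ 0 → ∃ w : V3, w ≠ 0 ∧ S.L x *ᵥ w = τ x • w ∧ S.g x w w ≤ 0

end Pool.Agent.helper68.B2
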