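import Pool.Agent.helper68.B2.Defs3
import Pool.Agent.helper49.B2.FR2
import Pool.Agent.helper65.B2.BC
import Pool.Agent.helper49.B2.LR

/-! # MP_b2b189_gt, b2:LT: local constancy off the triple points -/

set_option autoImplicit false

namespace Pool.Agent.helper68.B2

open scoped ContDiff Topology Matrix
open Matrix Set Filter Asymptotics
open Pool.Agent.helper25.B2 (Block)

theorem LT_abs {φ σ D : ℝ → ℝ} {t₀ : ℝ}
    (hcont : ∀ᶠ t in 𝓝 t₀, ContinuousAt φ t)
    (hsq : ∀ᶠ t in 𝓝 t₀, (φ t - σ t) ^ 2 = D t)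
    (hloc : ∀ᶠ t in 𝓝 t₀, D t ≠ 0 → HasDerivAt φ 0 t)
    (hD : D t₀ = 0)
    (hacc : (∃ᶠ t in 𝓝[≠] t₀, D t = 0) →
      HasDerivAt σ 0 t₀ ∧ D =O[𝓝 t₀] (fun t => (t - t₀) ^ 3)) :
    HasDerivAt φ 0 t₀ := by
  by_cases hac : ∃ᶠ t in 𝓝[≠] t₀, D t = 0
  · obtain ⟨h1, h2⟩ := hacc hac
    have h0 : φ t₀ = σ t₀ := by
      have := hsq.self_of_nhds
      rw [hD] at this
      have := pow_eq_zero_iff (two_ne_zero) |>.mp this
      linarith
    have h3 : (fun t => (t - t₀) ^ 3) =o[𝓝 t₀] (fun t => (t - t₀) ^ 2) := by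
      have h4 : (fun t : ℝ => t - t₀) =o[𝓝 t₀] (fun _ => (1 : ℝ)) := by
        rw [isLittleO_one_iff]
        have : Tendsto (fun t : ℝ => t - t₀) (𝓝 t₀) (𝓝 (t₀ - t₀)) :=
          (continuous_id.sub continuous_const).tendsto t₀
        rwa [sub_self] at this
      have h5 := h4.mul_isBigO (isBigO_refl (fun t : ℝ => (t - t₀) ^ 2) (𝓝 t₀))
      refine h5.congr (fun t => by ring) (fun t => by ring)
    have h4 : (fun t => (φ t - σ t) ^ 2) =o[𝓝 t₀] (fun t => (t - t₀) ^ 2) := by
      refine (h2.trans_isLittleO h3).congr' ?_ EventuallyEq.rfl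
      filter_upwards [hsq] with t ht using ht.symm
    have h5 : (fun t => φ t - σ t) =o[𝓝 t₀] (fun t => t - t₀) := h4.of_pow two_ne_zero
    rw [hasDerivAt_iff_isLittleO] at h1 ⊢
    refine (h5.add h1).congr (fun t => ?_) (fun t => rfl)
    rw [h0]
    ring
  · rw [not_frequently] at hac
    rw [eventually_nhdsWithin_iff] at hac
    obtain ⟨δ, hδ, hb⟩ := Metric.eventually_nhds_iff.mp (hcont.and (hloc.and hac))
    have hmem : ∀ t, |t - t₀| < δ → dist t t₀ < δ := fun t ht => by rwa [Real.dist_eq]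
    have key : ∀ t, dist t t₀ < δ → φ t = φ t₀ := by
      intro t ht
      rw [Real.dist_eq] at ht
      rcases lt_trichotomy t t₀ with h | h | h
      · rw [abs_lt] at ht
        obtain ⟨c, hc, he⟩ := exists_hasDerivAt_eq_slope φ (fun _ => 0) h
          (fun s hs => ((hb (hmem s (by rw [abs_lt]; constructor <;> linarith [hs.1, hs.2]))).1).continuousWithinAt)
          (fun s hs => by
            have := hb (hmem s (by rw [abs_lt]; constructor <;> linarith [hs.1, hs.2]))
            exact this.2.1 (this.2.2 hs.2.ne))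
        have hne : t₀ - t ≠ 0 := by linarith
        have := (div_eq_zero_iff.mp he.symm).resolve_right hne
        linarith
      · rw [h]
      · rw [abs_lt] at ht
        obtain ⟨c, hc, he⟩ := exists_hasDerivAt_eq_slope φ (fun _ => 0) h
          (fun s hs => ((hb (hmem s (by rw [abs_lt]; constructor <;> linarith [hs.1, hs.2]))).1).continuousWithinAt)
          (fun s hs => by
            have := hb (hmem s (by rw [abs_lt]; constructor <;> linarith [hs.1, hs.2]))
            exact this.2.1 (this.2.2 hs.1.ne'))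
        have hne : t - t₀ ≠ 0 := by linarith
        have := (div_eq_zero_iff.mp he.symm).resolve_right hne
        linarith
    have hev : φ =ᶠ[𝓝 t₀] fun _ => φ t₀ := by
      rw [EventuallyEq, Metric.eventually_nhds_iff]
      exact ⟨δ, hδ, key⟩
    exact (hasDerivAt_const t₀ (φ t₀)).congr_of_eventuallyEq hev

/-- comparison of the two factorizations of the characteristic polynomial -/
theorem LT_sq {A : M3} {μ ν ρ s d l : ℝ} (h : RR3 A μ ν ρ)
    (h' : ∀ t : ℝ, (t • (1 : M3) - A).det = ((t - s) ^ 2 - d) * (t - l)) (hl : l = ρ) :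
    (μ - s) ^ 2 = d ∧ (ν - s) ^ 2 = d := by
  subst hl
  have e : ∀ t : ℝ, ((t - s) ^ 2 - d) * (t - l) = (t - μ) * (t - ν) * (t - l) := fun t => by
    rw [← h' t, h t]
  have e1 := e (l + 1)
  have e2 := e (l - 1)
  have e3 := e (l + 2)
  have hs : μ + ν = 2 * s := by nlinarith
  have hp : μ * ν = s ^ 2 - d := by linear_combination -e1 + (l + 1) * hs
  constructor
  · linear_combination μ * hs - hp
  · linear_combination ν * hs - hp

theorem locally_const {S : Geo} (hNC : S.NC) {R : Roots S} (T : Tri S R) {c : E4 → ℝ}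
    (hc : ContinuousOn c {0}ᶜ) (h1 : ∀ x, x ≠ 0 → c x = T.μ x ∨ c x = T.ν x)
    (h2 : ∀ x, x ≠ 0 → T.μ x < T.ν x → ∀ᶠ y in 𝓝 x, c y = c x) {x : E4} (hx : x ≠ 0)
    (h3 : T.μ x ≠ T.ρ x) : ∀ᶠ y in 𝓝 x, c y = c x := by
  rcases (T.le₁ x hx).lt_or_eq with hlt | heq
  · exact h2 x hx hlt
  -- `x` is a point of `S2`
  have hτ : R.τ x = T.μ x := T.coll x hx heq
  have hfx := T.fac x hx
  have hRx := R.fac x hx
  have hρ : T.μ x < T.ρ x := lt_of_le_of_ne ((T.le₁ x hx).trans (T.le₂ x hx)) h3
  -- sum and product of the other roots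
  have hsum : R.σ₁ x + R.σ₂ x = T.ν x + T.ρ x := by
    have e1 := RR3_trace hfx
    have e2 := RR3_trace hRx
    linarith
  have hprod : (T.μ x - R.σ₁ x) * (T.μ x - R.σ₂ x) = 0 := by
    have e1 := (RR3_adj hfx).1
    have e2 := (RR3_adj hRx).1
    rw [hτ] at e2
    rw [← e2, e1, ← heq, sub_self, zero_mul]
  have hS2 : x ∈ R.S2 := by
    refine ⟨hx, ?_⟩
    rw [hτ]
    rcases mul_eq_zero.mp hprod with h | h
    · left
      have h' : T.μ x = R.σ₁ x := sub_eq_zero.mp h
      refine ⟨h', ?_⟩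
      have : R.σ₂ x = T.ρ x := by linarith
      rw [this]
      exact hρ.ne
    · right
      have h' : T.μ x = R.σ₂ x := sub_eq_zero.mp h
      refine ⟨h', ?_⟩
      have : R.σ₁ x = T.ρ x := by linarith
      rw [this]
      exact hρ.ne
  have hxN := R.S2_sub_N hS2
  have hfar : R.far x = T.ρ x := by
    have e1 := RR3_trace ((R.far_S2 hxN).mp hS2).1
    have e2 := RR3_trace hfx
    rw [← heq, ← hτ] at e2
    linarith
  obtain ⟨B, z, n, e, hxW, hB, hA, -, hWN, hfac⟩ := R.block_at hNC hS2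
  -- `far = ρ` near `x`
  have hcm := T.cμ.continuousAt (isOpen_compl_singleton.mem_nhds hx)
  have hcn := T.cν.continuousAt (isOpen_compl_singleton.mem_nhds hx)
  have hcf : ContinuousAt R.far x := (R.smN hxN).1.continuousAt
  have hev : ∀ᶠ y in 𝓝 x, y ∈ B.W ∧ R.far y = T.ρ y := by
    have e1 : ∀ᶠ y in 𝓝 x, T.μ y < (T.μ x + T.ρ x) / 2 :=
      hcm.eventually (gt_mem_nhds (by linarith))
    have e2 : ∀ᶠ y in 𝓝 x, T.ν y < (T.μ x + T.ρ x) / 2 :=
      hcn.eventually (gt_mem_nhds (by linarith))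
    have e3 : ∀ᶠ y in 𝓝 x, (T.μ x + T.ρ x) / 2 < R.far y :=
      hcf.eventually (lt_mem_nhds (by linarith))
    filter_upwards [B.isOpen_W.mem_nhds hxW, e1, e2, e3] with y hyW h1 h2 h3
    refine ⟨hyW, ?_⟩
    rcases RR3_root (T.fac y (hWN hyW).1) (R.FR1_det (hWN hyW)) with h | h | h
    · linarith
    · linarith
    · exact h
  obtain ⟨ε, hε, hball⟩ := Metric.eventually_nhds_iff_ball.mp hev
  have hsqr : ∀ y ∈ Metric.ball x ε, (c y - B.s y) ^ 2 = B.a y * B.b y := by
    intro y hy
    obtain ⟨hyW, hyf⟩ := hball y hy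
    have hy0 := (hWN hyW).1
    obtain ⟨m1, m2⟩ := LT_sq (T.fac y hy0) (FR2_det hB hyW) (by rw [(hfac y hyW).1, hyf])
    rcases h1 y hy0 with h | h
    · rw [h]; exact m1
    · rw [h]; exact m2
  have hloc : ∀ y ∈ Metric.ball x ε, B.a y * B.b y ≠ 0 → ∀ᶠ y' in 𝓝 y, c y' = c y := by
    intro y hy hab
    obtain ⟨hyW, hyf⟩ := hball y hy
    have hy0 := (hWN hyW).1
    refine h2 y hy0 (lt_of_le_of_ne (T.le₁ y hy0) ?_)
    intro he
    apply hab
    obtain ⟨m1, m2⟩ := LT_sq (T.fac y hy0) (FR2_det hB hyW) (by rw [(hfac y hyW).1, hyf])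
    have t1 := RR3_trace (T.fac y hy0)
    have t2 : (S.L y).trace = 2 * B.s y + B.l y := by
      have := RR3_trace (block_roots S hB hyW)
      linarith
    rw [(hfac y hyW).1, hyf] at t2
    have : T.μ y = B.s y := by linarith
    rw [← m1, this]
    ring
  have hR : ∀ y ∈ B.W, B.a y * B.b y = 0 → B.h y = 0 → B.u y = 0 ∧ B.v y = 0 := by
    intro y hy hab hh
    obtain ⟨-, -, f3, f4, -, f6, -, -⟩ := hfac y hy
    have hX := R.lemma_R hNC (f6.mpr hab) (by rw [← f3]; exact hh)
    rw [hX] at f4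
    have hf := hB.frame y hy
    have hsy := S.symm y (hWN hy).1
    have g1 : bil (S.G y) (B.u y • z y + B.v y • n y) (n y) = 0 := by
      rw [← f4]
      simp [bil]
    have g2 : bil (S.G y) (B.u y • z y + B.v y • n y) (z y) = 0 := by
      rw [← f4]
      simp [bil]
    rw [GA_bil_add_left, GA_bil_smul_left, GA_bil_smul_left, hf.zn, hf.nn] at g1
    rw [GA_bil_add_left, GA_bil_smul_left, GA_bil_smul_left, hf.zz, GA_bil_symm hsy (n y) (z y),
      hf.zn] at g2
    constructor <;> linarith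
  -- along segments
  rw [Metric.eventually_nhds_iff_ball]
  refine ⟨ε, hε, fun y hy => ?_⟩
  set w : E4 := y - x with hw
  have hder : ∀ t₀ : ℝ, x + t₀ • w ∈ Metric.ball x ε → HasDerivAt (fun t : ℝ => c (x + t • w)) 0 t₀ := by
    intro t₀ ht₀
    have hline : Continuous (fun t : ℝ => x + t • w) := by fun_prop
    have hevb : ∀ᶠ t in 𝓝 t₀, x + t • w ∈ Metric.ball x ε :=
      hline.continuousAt.eventually (Metric.isOpen_ball.mem_nhds ht₀)
    have hcont : ∀ t : ℝ, x + t • w ∈ Metric.ball x ε → ContinuousAt (fun t : ℝ => c (x + t • w)) t := by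
      intro t ht
      have h0 := (hWN (hball _ ht).1).1
      exact ContinuousAt.comp (f := fun t : ℝ => x + t • w) (hc.continuousAt (isOpen_compl_singleton.mem_nhds h0))
        hline.continuousAt
    have hlocd : ∀ t : ℝ, x + t • w ∈ Metric.ball x ε → B.a (x + t • w) * B.b (x + t • w) ≠ 0 →
        HasDerivAt (fun t : ℝ => c (x + t • w)) 0 t := by
      intro t ht hab
      have := hline.continuousAt.eventually (hloc _ ht hab)
      exact (hasDerivAt_const t (c (x + t • w))).congr_of_eventuallyEq this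
    by_cases hD : B.a (x + t₀ • w) * B.b (x + t₀ • w) = 0
    · refine LT_abs (σ := fun t => B.s (x + t • w)) (D := fun t => B.a (x + t • w) * B.b (x + t • w))
        (hevb.mono hcont) (hevb.mono fun t ht => hsqr _ ht) (hevb.mono hlocd) hD ?_
      intro hac
      have hqW : x + t₀ • w ∈ B.W := (hball _ ht₀).1
      have hshift : ∀ t : ℝ, x + t₀ • w + (t - t₀) • w = x + t • w := by
        intro t
        module
      have hac' : ∃ᶠ t in 𝓝[≠] (0 : ℝ), B.a (x + t₀ • w + t • w) * B.b (x + t₀ • w + t • w) = 0 := by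
        intro hno
        apply hac
        rw [eventually_nhdsWithin_iff] at hno ⊢
        have htend : Tendsto (fun t : ℝ => t - t₀) (𝓝 t₀) (𝓝 0) := by
          have : Tendsto (fun t : ℝ => t - t₀) (𝓝 t₀) (𝓝 (t₀ - t₀)) :=
            (continuous_id.sub continuous_const).tendsto t₀
          rwa [sub_self] at this
        filter_upwards [htend.eventually hno] with t ht hne
        have := ht (sub_ne_zero.mpr hne)
        rwa [hshift] at this
      obtain ⟨c1, c2⟩ := B.block_C hA hR hqW hD w hac'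
      constructor
      · have hs := (B.smooth_s _ hqW).differentiableAt (by simp)
        have hl : HasDerivAt (fun t : ℝ => x + t • w) w t₀ := by
          simpa using ((hasDerivAt_id t₀).smul_const w).const_add x
        have := hs.hasFDerivAt.comp_hasDerivAt t₀ hl
        rwa [c1] at this
      · have htend : Tendsto (fun t : ℝ => t - t₀) (𝓝 t₀) (𝓝 0) := by
          have : Tendsto (fun t : ℝ => t - t₀) (𝓝 t₀) (𝓝 (t₀ - t₀)) :=
            (continuous_id.sub continuous_const).tendsto t₀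
          rwa [sub_self] at this
        have := c2.comp_tendsto htend
        refine this.congr (fun t => ?_) (fun t => rfl)
        simp only [Function.comp_apply, hshift]
    · exact hlocd t₀ ht₀ hD
  have hseg : ∀ t ∈ Icc (0 : ℝ) 1, x + t • w ∈ Metric.ball x ε := by
    intro t ht
    rw [mem_ball_iff_norm, add_sub_cancel_left, norm_smul, Real.norm_eq_abs, abs_of_nonneg ht.1]
    have : ‖w‖ < ε := by rw [hw]; exact mem_ball_iff_norm.mp hy
    nlinarith [norm_nonneg w, ht.2]
  obtain ⟨t, ht, he⟩ := exists_hasDerivAt_eq_slope (fun t : ℝ => c (x + t • w)) (fun _ => 0) zero_lt_one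
    (fun s hs => (hder s (hseg s hs)).continuousAt.continuousWithinAt)
    (fun s hs => hder s (hseg s ⟨hs.1.le, hs.2.le⟩))
  simp only [one_smul, zero_smul, add_zero, sub_zero, div_one, hw, add_sub_cancel] at he
  linarith

end Pool.Agent.helper68.B2
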