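import Pool.Agent.helper68.B2.MA2
import Pool.Agent.helper68.B2.TD
import Pool.Agent.helper68.B2.LT
import Pool.Agent.helper30.B2.ND
import Pool.Agent.helper30.B2.MA1
import Pool.Agent.helper72.B2.FI5
import Pool.Agent.helper72.B2.FI6
import Pool.Agent.helper52.B2.T4
import Pool.Agent.helper17.B2.RT

/-! # MP_b2b189_gt (S13780), b2:MA3: `τ` in the middle, the geometric main theorem -/

set_option autoImplicit false

namespace Pool.Agent.helper68.B2

open scoped ContDiff Topology Matrix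
open Matrix Set Filter

variable {S : Geo}

theorem MA3_root {A : M3} {a b c r : ℝ} (h : RR3 A a b c) (hr : (A - r • (1 : M3)).det = 0) :
    r = a ∨ r = b ∨ r = c := by
  have h1 := h r
  have h2 : (r • (1 : M3) - A).det = 0 := by
    have : r • (1 : M3) - A = -(A - r • (1 : M3)) := by abel
    rw [this, Matrix.det_neg, hr, mul_zero]
  rw [h2] at h1
  rcases mul_eq_zero.1 h1.symm with h3 | h3
  · rcases mul_eq_zero.1 h3 with h4 | h4
    · left; linarith
    · right; left; linarith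
  · right; right; linarith

theorem MA3_adj {A : M3} {a b c : ℝ} (h : RR3 A a b c) :
    (A - a • (1 : M3)).adjugate.trace = (a - b) * (a - c) := by
  have h1 := h (a + 1)
  have h2 := h (a - 1)
  have h0 := h a
  rw [Matrix.det_fin_three] at h1 h2 h0
  rw [Matrix.adjugate_fin_three, Matrix.trace_fin_three]
  simp [Matrix.sub_apply, Matrix.smul_apply, Matrix.one_apply] at h1 h2 h0 ⊢
  linear_combination (h1 - h2) / 2

theorem MA3_cube {A : M3} {a : ℝ} (h : RR3 A a a a) : (A - a • (1 : M3)) ^ 3 = 0 := by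
  set B := A - a • (1 : M3) with hB
  have h1 : B.charpoly = Polynomial.X ^ 3 := by
    apply Polynomial.funext
    intro t
    rw [Matrix.eval_charpoly]
    have h2 := h (t + a)
    have h3 : (Matrix.scalar (Fin 3)) t - B = (t + a) • (1 : M3) - A := by
      rw [hB, Matrix.scalar_apply, add_smul, ← Matrix.smul_one_eq_diagonal]
      abel
    rw [h3, h2]
    simp
    ring
  have h2 := Matrix.aeval_self_charpoly B
  rw [h1] at h2
  simpa using h2

theorem MA3_perm {A : M3} {a b c : ℝ} (h : RR3 A a b c) : RR3 A b a c ∧ RR3 A c a b := by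
  constructor <;> intro t <;> rw [h t] <;> ring

theorem MA3_conn {f : E4 → ℝ} (hf : ContinuousOn f {0}ᶜ) {x₀ : E4} (hx₀ : x₀ ≠ 0)
    (h : ∀ x, x ≠ 0 → f x = f x₀ → ∀ᶠ y in 𝓝 x, f y = f x) : ∀ x, x ≠ 0 → f x = f x₀ := by
  have hconn : IsPreconnected ({0}ᶜ : Set E4) := by
    have : (1 : Cardinal) < Module.rank ℝ E4 := by
      rw [← Module.finrank_eq_rank, finrank_euclideanSpace_fin]
      norm_num
    exact (isConnected_compl_singleton_of_one_lt_rank this 0).isPreconnected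
  intro x hx
  by_contra hne
  -- `U = {f = f x₀}`, `V = {f ≠ f x₀}`
  have ho : IsOpen ({0}ᶜ : Set E4) := isOpen_compl_singleton
  have hV : IsOpen ({0}ᶜ ∩ f ⁻¹' {f x₀}ᶜ) := hf.isOpen_inter_preimage ho isOpen_compl_singleton
  have hU : IsOpen ({0}ᶜ ∩ f ⁻¹' {f x₀}) := by
    rw [isOpen_iff_mem_nhds]
    rintro y ⟨hy, hy2⟩
    have h1 := h y hy hy2
    filter_upwards [h1, ho.mem_nhds hy] with z hz hz2
    exact ⟨hz2, by rw [mem_preimage, hz]; exact hy2⟩
  obtain ⟨z, hz, hz1, hz2⟩ := hconn _ _ hU hV (fun z hz => by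
    by_cases h1 : f z = f x₀
    · exact Or.inl ⟨hz, h1⟩
    · exact Or.inr ⟨hz, h1⟩) ⟨x₀, hx₀, hx₀, rfl⟩ ⟨x, hx, hx, hne⟩
  exact hz2.2 hz1.2

/-- the roots of `-L` -/
def MA3_negRoots (R : Roots S) : Roots S.neg where
  τ := fun x => -R.τ x
  σ₁ := fun x => -R.σ₂ x
  σ₂ := fun x => -R.σ₁ x
  cτ := R.cτ.neg
  c₁ := R.c₂.neg
  c₂ := R.c₁.neg
  hτ := fun t ht x => by show -R.τ _ = -R.τ _; rw [R.hτ t ht x]
  h₁ := fun t ht x => by show -R.σ₂ _ = -R.σ₂ _; rw [R.h₂ t ht x]
  h₂ := fun t ht x => by show -R.σ₁ _ = -R.σ₁ _; rw [R.h₁ t ht x]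
  fac := fun x hx t => by
    have h1 := R.fac x hx (-t)
    have h2 : t • (1 : M3) - S.neg.L x = -((-t) • (1 : M3) - S.L x) := by
      show t • (1 : M3) - -S.L x = _
      rw [neg_smul]; abel
    rw [h2, Matrix.det_neg, h1]
    simp
    ring
  le := fun x hx => neg_le_neg (R.le x hx)
  causal := fun x hx => by
    obtain ⟨w, h1, h2, h3⟩ := R.causal x hx
    refine ⟨w, h1, ?_, h3⟩
    show (-S.L x) *ᵥ w = (-R.τ x) • w
    rw [Matrix.neg_mulVec, h2, neg_smul]

theorem MA3_neg_adj (x : E4) (r : ℝ) :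
    (S.neg.L x - (-r) • (1 : M3)).adjugate = (S.L x - r • (1 : M3)).adjugate := by
  have h2 : S.neg.L x - (-r) • (1 : M3) = -(S.L x - r • (1 : M3)) := by
    show -S.L x - (-r) • (1 : M3) = _
    rw [neg_smul]; abel
  rw [h2, ← neg_one_smul ℝ (S.L x - r • (1 : M3)), Matrix.adjugate_smul]
  simp

/-- MA3: `τ` in the middle -/
theorem case_middle (hNC : S.NC) (R : Roots S)
    (h : ∀ x, x ≠ 0 → R.σ₁ x ≤ R.τ x ∧ R.τ x ≤ R.σ₂ x) : False := by
  -- the two ordered triples
  let T₁ : Tri S R :=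
    { μ := R.σ₁, ν := R.τ, ρ := R.σ₂, cμ := R.c₁, cν := R.cτ, cρ := R.c₂
      hμ := R.h₁, hν := R.hτ, hρ := R.h₂
      fac := fun x hx => (MA3_perm (R.fac x hx)).1
      le₁ := fun x hx => (h x hx).1
      le₂ := fun x hx => (h x hx).2
      coll := fun x _ he => he.symm
      cyc := fun x hx he => by rw [he]; exact R.no_D hNC hx }
  let R' := MA3_negRoots R
  have hNC' : S.neg.NC := Geo.neg_NC S hNC
  let T₂ : Tri S.neg R' :=
    { μ := R'.σ₁, ν := R'.τ, ρ := R'.σ₂, cμ := R'.c₁, cν := R'.cτ, cρ := R'.c₂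
      hμ := R'.h₁, hν := R'.hτ, hρ := R'.h₂
      fac := fun x hx => (MA3_perm (R'.fac x hx)).1
      le₁ := fun x hx => neg_le_neg (h x hx).2
      le₂ := fun x hx => neg_le_neg (h x hx).1
      coll := fun x _ he => he.symm
      cyc := fun x hx he => by rw [he]; exact R'.no_D hNC' hx }
  obtain ⟨c₁, cc₁, hc₁, v₁, l₁, -⟩ := tri_dich hNC T₁
  obtain ⟨c₂, cc₂, hc₂, v₂, l₂, -⟩ := tri_dich hNC' T₂
  have L₁ : ∀ x, x ≠ 0 → R.σ₁ x ≠ R.σ₂ x → ∀ᶠ y in 𝓝 x, c₁ y = c₁ x := fun x hx hne =>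
    locally_const hNC T₁ cc₁ v₁ l₁ hx hne
  have L₂ : ∀ x, x ≠ 0 → R.σ₁ x ≠ R.σ₂ x → ∀ᶠ y in 𝓝 x, c₂ y = c₂ x := fun x hx hne =>
    locally_const hNC' T₂ cc₂ v₂ l₂ hx (fun h1 => hne (neg_injective h1).symm)
  have V₁ : ∀ x, x ≠ 0 → c₁ x = R.σ₁ x ∨ c₁ x = R.τ x := v₁
  have V₂ : ∀ x, x ≠ 0 → c₂ x = -R.σ₂ x ∨ c₂ x = -R.τ x := v₂
  -- the difference
  set f : E4 → ℝ := fun x => -c₂ x - c₁ x with hf
  have cf : ContinuousOn f {0}ᶜ := cc₂.neg.sub cc₁
  have f0 : ∀ x, x ≠ 0 → R.σ₁ x = R.σ₂ x → f x = 0 := by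
    intro x hx he
    have h1 := h x hx
    have h2 : R.τ x = R.σ₁ x := le_antisymm (by rw [he]; exact h1.2) h1.1
    simp only [hf]
    rcases V₁ x hx with h3 | h3 <;> rcases V₂ x hx with h4 | h4 <;> rw [h3, h4] <;> linarith
  have Lf : ∀ x, x ≠ 0 → R.σ₁ x ≠ R.σ₂ x → ∀ᶠ y in 𝓝 x, f y = f x := by
    intro x hx hne
    filter_upwards [L₁ x hx hne, L₂ x hx hne] with y h1 h2
    simp only [hf, h1, h2]
  have hreal : ∀ x, x ≠ 0 → ∃ r₁ r₂ : ℝ, RR3 (S.L x) (c₁ x) r₁ r₂ := by
    intro x hx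
    rcases V₁ x hx with h1 | h1 <;> rw [h1]
    · exact ⟨_, _, (MA3_perm (R.fac x hx)).1⟩
    · exact ⟨_, _, R.fac x hx⟩
  have hcube : ∀ x, x ≠ 0 → (S.L x - c₁ x • (1 : M3)) ^ 3 ≠ 0 → R.σ₁ x ≠ R.σ₂ x := by
    intro x hx h3 he
    have h1 := h x hx
    have h2 : R.τ x = R.σ₁ x := le_antisymm (by rw [he]; exact h1.2) h1.1
    have h4 : c₁ x = R.σ₁ x := by
      rcases V₁ x hx with h5 | h5
      · exact h5
      · rw [h5, h2]
    apply h3
    rw [h4]
    apply MA3_cube
    have h5 := R.fac x hx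
    rwa [h2, ← he] at h5
  -- multiple roots
  have hmul : ∀ x, x ≠ 0 → ∀ r : ℝ, (S.L x - r • (1 : M3)).det = 0 →
      (S.L x - r • (1 : M3)).adjugate.trace = 0 →
      (r = R.σ₁ x ∧ r = R.τ x) ∨ (r = R.τ x ∧ r = R.σ₂ x) := by
    intro x hx r hr ht
    have h1 := h x hx
    have hfac := R.fac x hx
    rcases MA3_root hfac hr with h2 | h2 | h2
    · subst h2
      rw [MA3_adj hfac] at ht
      rcases mul_eq_zero.1 ht with h3 | h3
      · left; exact ⟨by linarith, rfl⟩
      · right; exact ⟨rfl, by linarith⟩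
    · subst h2
      rw [MA3_adj (MA3_perm hfac).1] at ht
      rcases mul_eq_zero.1 ht with h3 | h3
      · left; exact ⟨rfl, by linarith⟩
      · left; exact ⟨rfl, by linarith⟩
    · subst h2
      rw [MA3_adj (MA3_perm hfac).2] at ht
      rcases mul_eq_zero.1 ht with h3 | h3
      · right; exact ⟨by linarith, rfl⟩
      · right; exact ⟨by linarith, rfl⟩
  by_cases hz : ∀ x, x ≠ 0 → f x = 0
  · -- `c₁ = τ`
    have hτ : ∀ x, x ≠ 0 → c₁ x = R.τ x := by
      intro x hx
      have h1 := h x hx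
      have h2 := hz x hx
      simp only [hf] at h2
      rcases V₁ x hx with h3 | h3
      · rcases V₂ x hx with h4 | h4
        · rw [h3, h4] at h2
          rw [h3]; linarith
        · rw [h3, h4] at h2
          rw [h3]; linarith
      · exact h3
    obtain ⟨D⟩ := mk_FinData (S := S) c₁ cc₁ hc₁ hreal
      (fun x hx => by rw [hτ x hx]; exact R.no_D hNC hx)
      (fun x hx h3 => L₁ x hx (hcube x hx h3)) one_pos
      (fun x hx r hr ht hne => by
        exfalso
        rw [hτ x hx] at hne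
        rcases hmul x hx r hr ht with h3 | h3
        · exact hne h3.2
        · exact hne h3.1)
    exact D.fin_false
  · push Not at hz
    obtain ⟨x₀, hx₀, hne₀⟩ := hz
    have hconst : ∀ x, x ≠ 0 → f x = f x₀ := by
      apply MA3_conn cf hx₀
      intro x hx he
      apply Lf x hx
      intro h3
      exact hne₀ (he ▸ f0 x hx h3)
    have hnt : ∀ x, x ≠ 0 → R.σ₁ x ≠ R.σ₂ x := fun x hx h3 =>
      hne₀ ((hconst x hx) ▸ f0 x hx h3)
    obtain ⟨D⟩ := mk_FinData (S := S) c₁ cc₁ hc₁ hreal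
      (fun x hx => by
        have h1 := h x hx
        by_cases h2 : c₁ x = R.τ x
        · rw [h2]; exact R.no_D hNC hx
        · rcases V₁ x hx with h3 | h3
          · have h4 : R.σ₁ x ≠ R.τ x := fun h5 => h2 (h3.trans h5)
            rw [h3]
            intro h5
            have h6 := MA3_adj (MA3_perm (R.fac x hx)).1
            rw [h5, Matrix.trace_zero] at h6
            rcases mul_eq_zero.1 h6.symm with h7 | h7
            · exact h4 (by linarith)
            · exact hnt x hx (by linarith)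
          · exact absurd h3 h2)
      (fun x hx _ => L₁ x hx (hnt x hx)) (abs_pos.2 hne₀)
      (fun x hx r hr ht hne => by
        rcases hmul x hx r hr ht with h3 | h3
        · exfalso
          apply hne
          rcases V₁ x hx with h4 | h4
          · rw [h4]; exact h3.1
          · rw [h4]; exact h3.2
        · rw [← hconst x hx]
          have h5 : r = -c₂ x := by
            rcases V₂ x hx with h4 | h4
            · rw [h4, neg_neg]; exact h3.2
            · rw [h4, neg_neg]; exact h3.1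
          rw [h5])
    exact D.fin_false

/-- the geometric main theorem -/
theorem main_geo (S : Geo) : ¬ S.NC := by
  intro hNC
  obtain ⟨R⟩ := Geo.roots_exist S (Geo.real_roots S)
  rcases sign_order hNC R with h | ⟨h1, h2⟩ | ⟨h1, h2⟩
  · exact case_middle hNC R h
  · exact case_first hNC R h1 h2
  · exact case_first (Geo.neg_NC S hNC) (MA3_negRoots R) (fun x hx => neg_le_neg (h1 x hx))
      (fun x hx => neg_lt_neg (h2 x hx))

end Pool.Agent.helper68.B2
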