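import Pool.Agent.helper68.B2.Defs2
import Pool.Agent.helper25.B2.TDefs
import Pool.Agent.helper58.B2.W5

/-! # MP_b2b189_gt: global definitions: far root, block fields, ordered triples, the final form -/

set_option autoImplicit false

namespace Pool.Agent.helper68.B2

open scoped ContDiff Topology Matrix
open Matrix Set

namespace Roots

variable {S : Geo} (R : Roots S)

/-- the root different from `τ` which is farther from `τ` -/
noncomputable def far (x : E4) : ℝ :=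
  if |R.σ₁ x - R.τ x| < |R.σ₂ x - R.τ x| then R.σ₂ x else R.σ₁ x

/-- the open set where the far root is well defined (and simple) -/
def N : Set E4 := {x | x ≠ 0 ∧ |R.σ₁ x - R.τ x| ≠ |R.σ₂ x - R.τ x|}

/-- half of the sum of the two other roots -/
noncomputable def m (x : E4) : ℝ := ((S.L x).trace - R.far x) / 2

/-- `tr adj (L - far) = (far - r₁) (far - r₂)` -/
noncomputable def Pi (x : E4) : ℝ := (S.L x - R.far x • (1 : M3)).adjugate.trace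

/-- projection onto the eigenvector of the far root -/
noncomputable def P3 (x : E4) : M3 := (R.Pi x)⁻¹ • (S.L x - R.far x • (1 : M3)).adjugate

/-- `grad m`, the block part of `lam` -/
noncomputable def X (x : E4) : V3 := S.lam x - R.P3 x *ᵥ S.lam x

/-- traceless part of `L` on the block -/
noncomputable def Nn (x : E4) : M3 :=
  S.L x - R.m x • (1 : M3) - (R.far x - R.m x) • R.P3 x

/-- the function `h` (intrinsic formula) -/
noncomputable def h (x : E4) : ℝ :=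
  ((S.Lam x).trace - (R.P3 x * S.Lam x).trace) / 2
    - S.g x (R.P3 x *ᵥ S.lam x) (S.lam x) * (R.far x - R.m x) / R.Pi x

/-- points where `τ` is exactly double -/
def S2 : Set E4 := {x | x ≠ 0 ∧ ((R.τ x = R.σ₁ x ∧ R.τ x ≠ R.σ₂ x) ∨ (R.τ x = R.σ₂ x ∧ R.τ x ≠ R.σ₁ x))}

/-- triple points -/
def S3 : Set E4 := {x | x ≠ 0 ∧ R.τ x = R.σ₁ x ∧ R.τ x = R.σ₂ x}

/-- the `X`-invariant compact cones -/
def Gs (c b h₀ : ℝ) : Set E4 := {x | x ∈ R.S2 ∧ R.τ x = c ∧ R.far x = b ∧ R.h x = h₀ ∧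
  h₀ • R.Nn x = vecMulVec (R.X x) (S.G x *ᵥ R.X x)}

/-- the vector field `X` on `ℝ⁴` -/
noncomputable def Xg (x : E4) : E4 := fld (R.X x) x

end Roots

/-- ordered continuous roots `μ ≤ ν ≤ ρ`; at a collision `μ = ν` the endomorphism is cyclic at `μ` and
`μ` is the causal eigenvalue -/
structure Tri (S : Geo) (R : Roots S) where
  μ : E4 → ℝ
  ν : E4 → ℝ
  ρ : E4 → ℝ
  cμ : ContinuousOn μ {0}ᶜ
  cν : ContinuousOn ν {0}ᶜ
  cρ : ContinuousOn ρ {0}ᶜ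
  hμ : Hom μ
  hν : Hom ν
  hρ : Hom ρ
  fac : ∀ x, x ≠ 0 → RR3 (S.L x) (μ x) (ν x) (ρ x)
  le₁ : ∀ x, x ≠ 0 → μ x ≤ ν x
  le₂ : ∀ x, x ≠ 0 → ν x ≤ ρ x
  coll : ∀ x, x ≠ 0 → μ x = ν x → R.τ x = μ x
  cyc : ∀ x, x ≠ 0 → μ x = ν x → (S.L x - μ x • (1 : M3)).adjugate ≠ 0

/-- data for the final form: `c` is a continuous root with `adj (L - c) = s Z ⊗ Z♭ ≠ 0` -/
structure FinData (S : Geo) where
  c : E4 → ℝ
  Z : E4 → V3
  s : ℝ
  ε : ℝ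
  a : ℝ → ℝ
  cc : ContinuousOn c {0}ᶜ
  hc : Hom c
  cZ : ContinuousOn Z {0}ᶜ
  hZ : Hom Z
  hs : s = 1 ∨ s = -1
  real : ∀ x, x ≠ 0 → ∃ r₁ r₂ : ℝ, RR3 (S.L x) (c x) r₁ r₂
  root : ∀ x, x ≠ 0 → Z x ≠ 0 ∧ S.Ku (c x) x = s • vecMulVec (Z x) (Z x)
  loc : ∀ x, x ≠ 0 → (S.L x - c x • (1 : M3)) ^ 3 ≠ 0 → ∀ᶠ y in 𝓝 x, c y = c x
  hε : 0 < ε
  /-- other multiple roots are far from `c` -/
  sep : ∀ x, x ≠ 0 → ∀ r : ℝ, (S.L x - r • (1 : M3)).det = 0 →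
    (S.L x - r • (1 : M3)).adjugate.trace = 0 → r ≠ c x → ε ≤ |r - c x|
  /-- alignment -/
  align : ∀ x, x ≠ 0 → ∀ t : ℝ, |t - c x| < ε → 0 < s * (Z x ⬝ᵥ (S.Ku t x *ᵥ Z x))
  smooth_a : ContDiff ℝ ∞ a
  a_one : ∀ t : ℝ, |t| ≤ ε / 4 → a t = 1
  a_zero : ∀ t : ℝ, ε / 2 ≤ |t| → a t = 0

namespace FinData

variable {S : Geo} (D : FinData S)

/-- the aligned root vector at the value `t` near `c` -/
noncomputable def T (x : E4) (t : ℝ) : V3 :=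
  (D.s / Real.sqrt (D.s * (D.Z x ⬝ᵥ (S.Ku t x *ᵥ D.Z x)))) • (S.Ku t x *ᵥ D.Z x)

/-- contribution of another simple root `r` -/
noncomputable def w (x : E4) (r : ℝ) : V3 :=
  (D.a (r - D.c x) / S.g x (D.T x r) (D.T x r)) • D.T x r

/-- the value of the final vector field (its dual form is closed) -/
def IsTh (x : E4) (A : V3) : Prop :=
  ∃ r₁ r₂ : ℝ, RR3 (S.L x) (D.c x) r₁ r₂ ∧
    ((r₁ ≠ D.c x ∧ r₂ ≠ D.c x ∧ A = (S.g x (D.Z x) (D.Z x))⁻¹ • D.Z x + D.w x r₁ + D.w x r₂) ∨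
     (r₁ = D.c x ∧ r₂ ≠ D.c x ∧ ∃ A₂ : V3, A = A₂ + D.w x r₂ ∧
        (S.L x - r₂ • (1 : M3)).adjugate *ᵥ A₂ = 0 ∧ S.g x A₂ (D.Z x) = 1 ∧
        S.g x A₂ A₂ = -D.s / (S.L x - r₂ • (1 : M3)).adjugate.trace) ∨
     (r₁ = D.c x ∧ r₂ = D.c x ∧ IsCyc S x A ∧ S.g x A (D.Z x) = 1))

end FinData

end Pool.Agent.helper68.B2
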