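import Pool.Agent.helper25.B2.GDefs
import Pool.Agent.helper72.B2.FI6
import Pool.Agent.helper49.B2.FR1
import Pool.Agent.helper71.B2.A3
import Pool.Agent.helper92.B2.J2b
import Pool.Agent.helper52.B2.NGS

/-! # MP_b2b189_gt, b2:TD (first part): an ordered triple of roots gives the data `Srt` -/

set_option autoImplicit false

namespace Pool.Agent.helper68.B2

open scoped ContDiff Topology Matrix
open Matrix Set Filter

/-- an ordered triple of roots gives the data `Srt` -/
theorem Tri.toSrt {S : Geo} (hNC : S.NC) {R : Roots S} (T : Tri S R) :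
    ∃ Q : Srt S, Q.μ = T.μ ∧ Q.ν = T.ν ∧ Q.ρ = T.ρ := by
  have hadj : ∀ x, x ≠ 0 → (S.L x - T.μ x • (1 : M3)).adjugate ≠ 0 := by
    intro x hx h0
    rcases eq_or_lt_of_le (T.le₁ x hx) with h | h
    · exact T.cyc x hx h h0
    · have h1 := (RR3_adj (T.fac x hx)).1
      rw [h0, trace_zero] at h1
      have h2 := T.le₂ x hx
      exact absurd h1.symm (mul_pos_of_neg_of_neg (by linarith) (by linarith)).ne'
  obtain ⟨s, hs, w, hwc, hwH, hw⟩ := W2_root (fun x => S.Ku (T.μ x) x)
    (FI6_Ku_cont continuousOn_id (fun x hx => hx) T.cμ)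
    (by
      intro t ht x
      simp only [T.hμ t ht x]
      exact FI6_Ku_hom _ ht x)
    (by
      intro x hx
      obtain ⟨s, w, hs, h1, h2, -, -⟩ := LA_adj_root (FI6_Lor (S := S) hx) (FI6_SA (S := S) (T.μ x) hx)
        (RR3_adj (T.fac x hx)).2
      refine ⟨w, ?_, s, hs, h1⟩
      rintro rfl
      apply hadj x hx
      rw [h2]
      ext i j
      simp)
  refine ⟨{ μ := T.μ, ν := T.ν, ρ := T.ρ, cμ := T.cμ, cν := T.cν, cρ := T.cρ, hμ := T.hμ,
            hν := T.hν, hρ := T.hρ, fac := T.fac, le₁ := T.le₁, le₂ := T.le₂, T := w, sg := s,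
            hsg := hs, cT := hwc, hT := hwH, T0 := fun x hx => (hw x hx).1,
            KT := fun x hx => (hw x hx).2,
            lemA := fun x hx z hz hzz m hm => S.lemma_A hNC R hx hz hzz hm,
            nosq := fun x hx c => S.no_sq hNC R hx c }, rfl, rfl, rfl⟩

/-- there is a collision -/
theorem Tri.exists_coll {S : Geo} {R : Roots S} (T : Tri S R) : ∃ x, x ≠ 0 ∧ T.μ x = T.ν x := by
  by_contra hcon
  push Not at hcon
  have hlt : ∀ x, x ≠ 0 → T.μ x < T.ν x := fun x hx => lt_of_le_of_ne (T.le₁ x hx) (hcon x hx)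
  refine S.no_global_simple T.μ T.cμ T.hμ (fun x hx => (RR3_adj (T.fac x hx)).2) ?_
  intro x hx
  rw [(RR3_adj (T.fac x hx)).1]
  have h1 := hlt x hx
  have h2 := T.le₂ x hx
  exact (mul_pos_of_neg_of_neg (by linarith) (by linarith)).ne'

end Pool.Agent.helper68.B2
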