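import Pool.Agent.helper68.B2.TD
import Pool.Agent.helper68.B2.LT
import Pool.Agent.helper30.B2.ND
import Pool.Agent.helper72.B2.FI5
import Pool.Agent.helper72.B2.FI6

/-! # MP_b2b189_gt, b2:MA2: `τ` is the first eigenvalue -/

set_option autoImplicit false

namespace Pool.Agent.helper68.B2

open scoped ContDiff Topology Matrix
open Matrix Set

variable {S : Geo}

/-- the complement of the origin is preconnected -/
theorem MA2_preconn : IsPreconnected ({0}ᶜ : Set E4) := by
  apply (isConnected_compl_singleton_of_one_lt_rank _ _).isPreconnected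
  rw [← Module.finrank_eq_rank ℝ E4, finrank_euclideanSpace_fin]
  norm_num

/-- locally constant functions are constant -/
theorem MA2_const {c : E4 → ℝ} (h : ∀ x, x ≠ 0 → ∀ᶠ y in 𝓝 x, c y = c x) {x y : E4}
    (hx : x ≠ 0) (hy : y ≠ 0) : c x = c y := by
  have hp : PreconnectedSpace (({0}ᶜ : Set E4)) := Subtype.preconnectedSpace MA2_preconn
  have hl : IsLocallyConstant (fun x : ({0}ᶜ : Set E4) => c x) := by
    rw [IsLocallyConstant.iff_eventually_eq]
    intro x
    have := h x.1 x.2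
    exact continuous_subtype_val.continuousAt.eventually this
  exact hl.apply_eq_of_preconnectedSpace ⟨x, hx⟩ ⟨y, hy⟩

/-- a function which is positive on a closed set of the sphere is bounded below, extended by homogeneity -/
theorem MA2_lower {f : E4 → ℝ} (hf : ContinuousOn f {0}ᶜ) (hh : Hom f) {Q : Set E4}
    (hQ : IsClosed (Q ∩ {0}ᶜ ∩ Metric.sphere 0 1)) (hcone : ∀ x ∈ Q, ∀ t : ℝ, 0 < t → t • x ∈ Q)
    (hpos : ∀ x ∈ Q, x ≠ 0 → 0 < f x) : ∃ ε : ℝ, 0 < ε ∧ ∀ x ∈ Q, x ≠ 0 → ε ≤ f x := by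
  have hK : IsCompact (Q ∩ {0}ᶜ ∩ Metric.sphere (0 : E4) 1) :=
    (isCompact_sphere 0 1).of_isClosed_subset hQ inter_subset_right
  have key : ∃ ε : ℝ, 0 < ε ∧ ∀ x ∈ Q ∩ {0}ᶜ ∩ Metric.sphere (0 : E4) 1, ε ≤ f x := by
    rcases (Q ∩ {0}ᶜ ∩ Metric.sphere (0 : E4) 1).eq_empty_or_nonempty with he | hne
    · refine ⟨1, one_pos, fun x hx => ?_⟩
      rw [he] at hx
      exact absurd hx (notMem_empty x)
    · obtain ⟨x0, hx0, hmin⟩ := hK.exists_isMinOn hne
        (hf.mono (fun x hx => hx.1.2))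
      exact ⟨f x0, hpos x0 hx0.1.1 hx0.1.2, fun x hx => hmin hx⟩
  obtain ⟨ε, hε, hb⟩ := key
  refine ⟨ε, hε, fun x hx h0 => ?_⟩
  have hn : 0 < ‖x‖ := norm_pos_iff.mpr h0
  have h1 := hb (‖x‖⁻¹ • x) ⟨⟨hcone x hx _ (inv_pos.mpr hn), by
    simp only [mem_compl_iff, mem_singleton_iff]
    exact smul_ne_zero (inv_ne_zero hn.ne') h0⟩, by
    simp [norm_smul, hn.ne']⟩
  rwa [hh _ (inv_pos.mpr hn)] at h1

theorem case_first (hNC : S.NC) (R : Roots S) (h1 : ∀ x, x ≠ 0 → R.τ x ≤ R.σ₁ x)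
    (h2 : ∀ x, x ≠ 0 → R.τ x < R.σ₂ x) : False := by
  let T : Tri S R :=
    { μ := R.τ
      ν := R.σ₁
      ρ := R.σ₂
      cμ := R.cτ
      cν := R.c₁
      cρ := R.c₂
      hμ := R.hτ
      hν := R.h₁
      hρ := R.h₂
      fac := R.fac
      le₁ := h1
      le₂ := R.le
      coll := fun _ _ _ => rfl
      cyc := fun x hx _ => R.no_D hNC hx }
  obtain ⟨c, hc, hH, hdich, hlc, hach⟩ := tri_dich hNC T
  have hdich' : ∀ x, x ≠ 0 → c x = R.τ x ∨ c x = R.σ₁ x := hdich
  have hach' : ∀ x, x ≠ 0 → ∃ y, y ≠ 0 ∧ R.τ y = c x ∧ R.σ₁ y = R.σ₁ x ∧ R.σ₂ y = R.σ₂ x := hach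
  have hloc : ∀ x, x ≠ 0 → ∀ᶠ y in 𝓝 x, c y = c x := fun x hx =>
    locally_const hNC T hc hdich hlc hx (h2 x hx).ne
  have hne2 : ∀ x, x ≠ 0 → c x ≠ R.σ₂ x := by
    intro x hx he
    obtain ⟨y, hy, e1, _, e3⟩ := hach' x hx
    have := h2 y hy
    rw [e1, e3, he] at this
    exact lt_irrefl _ this
  -- the set `σ₁ = σ₂`
  have hcont : ContinuousOn (fun x => |R.σ₁ x - c x|) ({0}ᶜ : Set E4) := (R.c₁.sub hc).abs
  have hlow : ∃ ε : ℝ, 0 < ε ∧ ∀ x ∈ {x : E4 | R.σ₁ x = R.σ₂ x}, x ≠ 0 → ε ≤ |R.σ₁ x - c x| := by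
    refine MA2_lower hcont ?_ ?_ ?_ ?_
    · intro t ht x
      simp only [R.h₁ t ht x, hH t ht x]
    · have hS : IsClosed (Metric.sphere (0 : E4) 1) := Metric.isClosed_sphere
      have hsub : Metric.sphere (0 : E4) 1 ⊆ {0}ᶜ := by
        intro x hx h0
        rw [mem_singleton_iff.mp h0] at hx
        simp at hx
      have : {x : E4 | R.σ₁ x = R.σ₂ x} ∩ {0}ᶜ ∩ Metric.sphere 0 1
          = Metric.sphere 0 1 ∩ (fun x => R.σ₁ x - R.σ₂ x) ⁻¹' {0} := by
        ext x
        constructor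
        · rintro ⟨⟨h, _⟩, hs⟩
          exact ⟨hs, by simpa [sub_eq_zero] using h⟩
        · rintro ⟨hs, h⟩
          exact ⟨⟨by simpa [sub_eq_zero] using h, hsub hs⟩, hs⟩
      rw [this]
      exact ((R.c₁.sub R.c₂).mono hsub).preimage_isClosed_of_isClosed hS isClosed_singleton
    · intro x hx t ht
      simp only [mem_ofPred_eq] at hx ⊢
      rw [R.h₁ t ht x, R.h₂ t ht x, hx]
    · intro x hx h0
      have := hne2 x h0
      rw [abs_pos, sub_ne_zero]
      intro he
      apply this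
      rw [← he]
      exact hx
  obtain ⟨ε₀, hε₀, hlow⟩ := hlow
  have hfin : Nonempty (FinData S) := by
    refine mk_FinData c hc hH ?_ ?_ (fun x hx _ => hloc x hx) hε₀ ?_
    · intro x hx
      rcases hdich' x hx with h | h
      · exact ⟨R.σ₁ x, R.σ₂ x, by rw [h]; exact R.fac x hx⟩
      · exact ⟨R.τ x, R.σ₂ x, by rw [h]; exact (RR3_perm (R.fac x hx)).1⟩
    · intro x hx
      rcases hdich' x hx with h | h
      · rw [h]; exact R.no_D hNC hx
      · by_cases he : R.σ₁ x = R.τ x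
        · rw [h, he]; exact R.no_D hNC hx
        · intro h0
          have h3 := (RR3_adj (RR3_perm (R.fac x hx)).1).1
          rw [← h, h0] at h3
          have h4 : c x ≠ R.τ x := by rw [h]; exact he
          have h5 := mul_ne_zero (sub_ne_zero.mpr h4) (sub_ne_zero.mpr (hne2 x hx))
          apply h5
          rw [← h3]
          simp
    · intro x hx r hr htr hrc
      have hf := R.fac x hx
      rcases RR3_root hf hr with e | e | e
      · -- r = τ
        rw [e, (RR3_adj hf).1] at htr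
        rcases mul_eq_zero.mp htr with h | h
        · exfalso
          have : R.τ x = R.σ₁ x := sub_eq_zero.mp h
          rcases hdich' x hx with h' | h'
          · exact hrc (by rw [e, h'])
          · exact hrc (by rw [e, h', this])
        · exact absurd (sub_eq_zero.mp h) (h2 x hx).ne
      · -- r = σ₁
        rw [e, (RR3_adj (RR3_perm hf).1).1] at htr
        rcases mul_eq_zero.mp htr with h | h
        · exfalso
          have : R.σ₁ x = R.τ x := sub_eq_zero.mp h
          rcases hdich' x hx with h' | h'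
          · exact hrc (by rw [e, h', this])
          · exact hrc (by rw [e, h'])
        · rw [e]
          exact hlow x (sub_eq_zero.mp h) hx
      · -- r = σ₂
        have hf2 : RR3 (S.L x) (R.σ₂ x) (R.τ x) (R.σ₁ x) :=
          (RR3_perm (RR3_perm hf).2).1
        rw [e, (RR3_adj hf2).1] at htr
        rcases mul_eq_zero.mp htr with h | h
        · exact absurd (sub_eq_zero.mp h).symm (h2 x hx).ne
        · have h' := (sub_eq_zero.mp h).symm
          rw [e, ← h']
          exact hlow x h' hx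
  obtain ⟨D⟩ := hfin
  exact D.fin_false

end Pool.Agent.helper68.B2
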